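import Mathlib

set_option autoImplicit false

namespace Pool.Agent.Results.MP_61e712_co.QuadraticRange

open Finset

/-- number of length `w` intervals containing two points at distance `|x|` -/
def kk (w : ℕ) (x : ℤ) : ℕ := ((w : ℤ) - |x|).toNat

theorem kk_zero (w : ℕ) : kk w 0 = w := by simp [kk]

theorem kk_sum (w : ℕ) : ∑ x ∈ Ioo (-(w : ℤ)) w, kk w x = w ^ 2 := by
  induction w with
  | zero => simp
  | succ w ih =>
    rcases Nat.eq_zero_or_pos w with h0 | h0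
    · subst h0
      have : Ioo (-((0 + 1 : ℕ) : ℤ)) ((0 + 1 : ℕ) : ℤ) = {0} := by
        ext x; simp only [mem_Ioo, mem_singleton]; push_cast; omega
      rw [this, sum_singleton, kk_zero]; norm_num
    · have e : Ioo (-((w + 1 : ℕ) : ℤ)) ((w + 1 : ℕ) : ℤ)
          = insert (w : ℤ) (insert (-(w : ℤ)) (Ioo (-(w : ℤ)) w)) := by
        ext x; simp only [mem_Ioo, mem_insert]; push_cast; omega
      rw [e, sum_insert, sum_insert]
      · have h1 : ∑ x ∈ Ioo (-(w : ℤ)) w, kk (w + 1) x = ∑ x ∈ Ioo (-(w : ℤ)) w, (kk w x + 1) := by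
          apply sum_congr rfl
          intro x hx
          rw [mem_Ioo] at hx
          have : |x| < w := abs_lt.mpr hx
          unfold kk; push_cast; omega
        have h2 : kk (w + 1) (w : ℤ) = 1 := by
          unfold kk
          rw [abs_of_nonneg (by positivity)]; push_cast; omega
        have h3 : kk (w + 1) (-(w : ℤ)) = 1 := by
          unfold kk
          rw [abs_neg, abs_of_nonneg (by positivity)]; push_cast; omega
        have h4 : (Ioo (-(w : ℤ)) w).card = 2 * w - 1 := by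
          rw [Int.card_Ioo]; omega
        rw [h1, h2, h3, sum_add_distrib, ih, sum_const, h4, smul_eq_mul, mul_one]
        have : 2 * w - 1 + 1 = 2 * w := by omega
        ring_nf
        ring_nf at this
        omega
      · simp
      · simp only [mem_insert, mem_Ioo]; omega

theorem kk_sum' (w : ℕ) (hw : 0 < w) :
    ∑ x ∈ (Ioo (-(w : ℤ)) w).erase 0, kk w x = w * (w - 1) := by
  have h := kk_sum w
  have h0 : (0 : ℤ) ∈ Ioo (-(w : ℤ)) w := by rw [mem_Ioo]; omega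
  rw [← add_sum_erase _ _ h0, kk_zero] at h
  have : w * (w - 1) + w = w ^ 2 := by
    obtain ⟨k, rfl⟩ : ∃ k, w = k + 1 := ⟨w - 1, by omega⟩
    simp only [Nat.add_sub_cancel]; ring
  omega

/-- the window with corner `t` contains the point `p` -/
def inw (w : ℕ) (t p : ℤ × ℤ) : Prop :=
  t.1 ≤ p.1 ∧ p.1 < t.1 + w ∧ t.2 ≤ p.2 ∧ p.2 < t.2 + w

instance (w : ℕ) (t p : ℤ × ℤ) : Decidable (inw w t p) := by unfold inw; infer_instance

/-- corners of all windows that meet the square `[0, n)²` -/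
noncomputable def corners (n w : ℕ) : Finset (ℤ × ℤ) :=
  Icc (-((w : ℤ) - 1)) ((n : ℤ) - 1) ×ˢ Icc (-((w : ℤ) - 1)) ((n : ℤ) - 1)

theorem card_corners (n w : ℕ) (hw : 0 < w) : (corners n w).card = (n + w - 1) ^ 2 := by
  unfold corners
  rw [card_product, Int.card_Icc]
  have : ((n : ℤ) - 1 + 1 - -((w : ℤ) - 1)).toNat = n + w - 1 := by omega
  rw [this, sq]

theorem count_both (n w : ℕ) (p q : ℤ × ℤ)
    (hp : 0 ≤ p.1 ∧ p.1 < n ∧ 0 ≤ p.2 ∧ p.2 < n) (_hq : 0 ≤ q.1 ∧ q.1 < n ∧ 0 ≤ q.2 ∧ q.2 < n) :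
    ((corners n w).filter (fun t => inw w t p ∧ inw w t q)).card
      = kk w (q.1 - p.1) * kk w (q.2 - p.2) := by
  have e : (corners n w).filter (fun t => inw w t p ∧ inw w t q)
      = Icc (max p.1 q.1 - w + 1) (min p.1 q.1) ×ˢ Icc (max p.2 q.2 - w + 1) (min p.2 q.2) := by
    ext t
    simp only [corners, inw, mem_filter, mem_product, mem_Icc]
    constructor
    · rintro ⟨_, h⟩
      refine ⟨⟨?_, ?_⟩, ?_, ?_⟩
      · rcases max_choice p.1 q.1 with h' | h' <;> rw [h'] <;> omega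
      · exact le_min (by omega) (by omega)
      · rcases max_choice p.2 q.2 with h' | h' <;> rw [h'] <;> omega
      · exact le_min (by omega) (by omega)
    · rintro ⟨⟨h1, h2⟩, h3, h4⟩
      have a1 := le_max_left p.1 q.1
      have a2 := le_max_right p.1 q.1
      have a3 := le_max_left p.2 q.2
      have a4 := le_max_right p.2 q.2
      have b1 := min_le_left p.1 q.1
      have b2 := min_le_right p.1 q.1
      have b3 := min_le_left p.2 q.2
      have b4 := min_le_right p.2 q.2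
      omega
  have key : ∀ x y : ℤ, (Icc (max x y - w + 1) (min x y)).card = kk w (y - x) := by
    intro x y
    rw [Int.card_Icc]
    unfold kk
    rcases le_total x y with h | h
    · rw [max_eq_right h, min_eq_left h, abs_of_nonneg (by omega)]; congr 1; ring
    · rw [max_eq_left h, min_eq_right h, abs_of_nonpos (by omega)]; congr 1; ring
  rw [e, card_product, key, key]

theorem window_cs (n w : ℕ) (hw : 0 < w) (S : Finset (ℤ × ℤ))
    (hS : ∀ p ∈ S, 0 ≤ p.1 ∧ p.1 < n ∧ 0 ≤ p.2 ∧ p.2 < n) :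
    (S.card * w ^ 2) ^ 2 ≤
      (n + w - 1) ^ 2 * ∑ p ∈ S, ∑ q ∈ S, kk w (q.1 - p.1) * kk w (q.2 - p.2) := by
  let ind : ℤ × ℤ → ℤ × ℤ → ℤ := fun t p => if inw w t p then 1 else 0
  have h1 : ∑ t ∈ corners n w, ∑ p ∈ S, ind t p = S.card * w ^ 2 := by
    rw [sum_comm]
    rw [sum_congr rfl (g := fun _ => ((w : ℤ) ^ 2))]
    · rw [sum_const, nsmul_eq_mul]
    · intro p hp
      have := count_both n w p p (hS p hp) (hS p hp)
      simp only [and_self, sub_self, kk_zero] at this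
      simp only [ind]
      rw [sum_boole, this]
      push_cast; ring
  have h2 : ∑ t ∈ corners n w, (∑ p ∈ S, ind t p) ^ 2
      = ∑ p ∈ S, ∑ q ∈ S, ((kk w (q.1 - p.1) * kk w (q.2 - p.2) : ℕ) : ℤ) := by
    have e1 : ∀ t, (∑ p ∈ S, ind t p) ^ 2 = ∑ p ∈ S, ∑ q ∈ S, ind t p * ind t q := by
      intro t; rw [sq, sum_mul_sum]
    rw [sum_congr rfl (fun t _ => e1 t), sum_comm]
    apply sum_congr rfl
    intro p hp
    rw [sum_comm]
    apply sum_congr rfl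
    intro q hq
    rw [← count_both n w p q (hS p hp) (hS q hq), ← sum_boole]
    apply sum_congr rfl
    intro t _
    simp only [ind]
    by_cases a : inw w t p <;> by_cases b : inw w t q <;> simp [a, b]
  have h3 := sq_sum_le_card_mul_sum_sq (s := corners n w) (f := fun t => ∑ p ∈ S, ind t p)
  rw [h1, h2, card_corners n w hw] at h3
  exact_mod_cast h3

/-- all difference vectors between distinct points of `S` -/
def dif (S : Finset (ℤ × ℤ)) : Finset (ℤ × ℤ) := S.offDiag.image (fun z => z.2 - z.1)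

theorem energy (w : ℕ) (S : Finset (ℤ × ℤ))
    (hC : ∀ p ∈ S, ∀ q ∈ S, ∀ r ∈ S, ∀ s ∈ S, p ≠ q → r ≠ s → q - p = s - r → p = r ∧ q = s) :
    ∑ p ∈ S, ∑ q ∈ S, kk w (q.1 - p.1) * kk w (q.2 - p.2)
      = S.card * w ^ 2 + ∑ u ∈ dif S, kk w u.1 * kk w u.2 := by
  unfold dif
  rw [sum_image]
  · rw [← sum_product', ← diag_union_offDiag, sum_union (disjoint_diag_offDiag S)]
    congr 1
    rw [sum_diag]
    simp only [sub_self, kk_zero]
    rw [sum_const, smul_eq_mul, sq]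
  · intro z hz z' hz' h
    rw [mem_coe, mem_offDiag] at hz hz'
    obtain ⟨h1, h2⟩ := hC z.1 hz.1 z.2 hz.2.1 z'.1 hz'.1 z'.2 hz'.2.1 hz.2.2 hz'.2.2 h
    exact Prod.ext h1 h2

theorem total (w : ℕ) (hw : 0 < w) (D E : Finset (ℤ × ℤ)) (hDE : Disjoint D E)
    (hD : ∀ u ∈ D, u.1 ≠ 0 ∧ u.2 ≠ 0) (hE : ∀ u ∈ E, u.1 ≠ 0 ∧ u.2 ≠ 0) :
    ∑ u ∈ D, kk w u.1 * kk w u.2 + ∑ u ∈ E, kk w u.1 * kk w u.2 ≤ (w * (w - 1)) ^ 2 := by
  rw [← sum_union hDE]
  have h1 : ∑ u ∈ ((Ioo (-(w : ℤ)) w).erase 0) ×ˢ ((Ioo (-(w : ℤ)) w).erase 0),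
      kk w u.1 * kk w u.2 = (w * (w - 1)) ^ 2 := by
    rw [sum_product, sq, ← kk_sum' w hw, sum_mul_sum]
  rw [← h1]
  apply sum_le_sum_of_ne_zero
  intro u hu hne
  have h2 : u.1 ≠ 0 ∧ u.2 ≠ 0 := by
    rcases mem_union.mp hu with h | h
    · exact hD u h
    · exact hE u h
  have h3 : kk w u.1 ≠ 0 := fun h => hne (by rw [h, zero_mul])
  have h4 : kk w u.2 ≠ 0 := fun h => hne (by rw [h, mul_zero])
  have h5 : ∀ x : ℤ, kk w x ≠ 0 → x ∈ Ioo (-(w : ℤ)) w := by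
    intro x hx
    rw [mem_Ioo, ← abs_lt]
    by_contra hcon
    apply hx
    unfold kk
    omega
  rw [mem_product, mem_erase, mem_erase]
  exact ⟨⟨h2.1, h5 _ h3⟩, h2.2, h5 _ h4⟩

/-- the dots of a permutation -/
def dots {n : ℕ} (f : Equiv.Perm (Fin n)) : Finset (ℤ × ℤ) :=
  univ.image (fun i : Fin n => (((i : ℕ) : ℤ), ((f i : ℕ) : ℤ)))

theorem dots_inj {n : ℕ} (f : Equiv.Perm (Fin n)) :
    Function.Injective (fun i : Fin n => (((i : ℕ) : ℤ), ((f i : ℕ) : ℤ))) := by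
  intro i j h
  have := (Prod.ext_iff.mp h).1
  simp only at this
  exact Fin.ext (by exact_mod_cast this)

theorem card_dots {n : ℕ} (f : Equiv.Perm (Fin n)) : (dots f).card = n := by
  unfold dots
  rw [card_image_of_injective _ (dots_inj f), card_univ, Fintype.card_fin]

theorem mem_dots {n : ℕ} {f : Equiv.Perm (Fin n)} {p : ℤ × ℤ} :
    p ∈ dots f ↔ ∃ i : Fin n, (((i : ℕ) : ℤ), ((f i : ℕ) : ℤ)) = p := by
  simp [dots]

/-- `f` is a Costas permutation: the displacement vectors between distinct dots are distinct -/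
def IsCostas {n : ℕ} (f : Equiv.Perm (Fin n)) : Prop :=
  ∀ i j k l : Fin n, i ≠ j → k ≠ l →
    ((j : ℕ) : ℤ) - ((i : ℕ) : ℤ) = ((l : ℕ) : ℤ) - ((k : ℕ) : ℤ) →
    ((f j : ℕ) : ℤ) - ((f i : ℕ) : ℤ) = ((f l : ℕ) : ℤ) - ((f k : ℕ) : ℤ) →
    i = k ∧ j = l

/-- `f` and `g` have a displacement vector between distinct dots in common -/
def HaveCommonVector {m n : ℕ} (f : Equiv.Perm (Fin m)) (g : Equiv.Perm (Fin n)) : Prop :=
  ∃ (i j : Fin m) (k l : Fin n), i ≠ j ∧ k ≠ l ∧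
    ((j : ℕ) : ℤ) - ((i : ℕ) : ℤ) = ((l : ℕ) : ℤ) - ((k : ℕ) : ℤ) ∧
    ((f j : ℕ) : ℤ) - ((f i : ℕ) : ℤ) = ((g l : ℕ) : ℤ) - ((g k : ℕ) : ℤ)

theorem dots_costas {n : ℕ} {f : Equiv.Perm (Fin n)} (hf : IsCostas f) :
    ∀ p ∈ dots f, ∀ q ∈ dots f, ∀ r ∈ dots f, ∀ s ∈ dots f,
      p ≠ q → r ≠ s → q - p = s - r → p = r ∧ q = s := by
  intro p hp q hq r hr s hs h1 h2 h3
  obtain ⟨i, rfl⟩ := mem_dots.mp hp
  obtain ⟨j, rfl⟩ := mem_dots.mp hq
  obtain ⟨k, rfl⟩ := mem_dots.mp hr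
  obtain ⟨l, rfl⟩ := mem_dots.mp hs
  have h4 := Prod.ext_iff.mp h3
  simp only [Prod.mk_sub_mk] at h4
  obtain ⟨e1, e2⟩ := hf i j k l (fun h => h1 (by rw [h])) (fun h => h2 (by rw [h])) h4.1 h4.2
  rw [e1, e2]
  exact ⟨rfl, rfl⟩

theorem dots_range {n : ℕ} (f : Equiv.Perm (Fin n)) :
    ∀ p ∈ dots f, 0 ≤ p.1 ∧ p.1 < n ∧ 0 ≤ p.2 ∧ p.2 < n := by
  intro p hp
  obtain ⟨i, rfl⟩ := mem_dots.mp hp
  have h1 := i.2
  have h2 := (f i).2
  simp only
  omega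

theorem mem_dif {n : ℕ} {f : Equiv.Perm (Fin n)} {u : ℤ × ℤ} (hu : u ∈ dif (dots f)) :
    ∃ i j : Fin n, i ≠ j ∧ u = (((j : ℕ) : ℤ) - ((i : ℕ) : ℤ), ((f j : ℕ) : ℤ) - ((f i : ℕ) : ℤ)) := by
  unfold dif at hu
  rw [mem_image] at hu
  obtain ⟨z, hz, rfl⟩ := hu
  rw [mem_offDiag] at hz
  obtain ⟨h1, h2, h3⟩ := hz
  obtain ⟨i, hi⟩ := mem_dots.mp h1
  obtain ⟨j, hj⟩ := mem_dots.mp h2
  refine ⟨i, j, ?_, ?_⟩
  · rintro rfl
    exact h3 (by rw [← hi, ← hj])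
  · rw [← hi, ← hj, Prod.mk_sub_mk]

theorem dif_ne {n : ℕ} {f : Equiv.Perm (Fin n)} : ∀ u ∈ dif (dots f), u.1 ≠ 0 ∧ u.2 ≠ 0 := by
  intro u hu
  obtain ⟨i, j, hij, rfl⟩ := mem_dif hu
  constructor
  · intro h
    simp only at h
    apply hij
    apply Fin.ext
    omega
  · intro h
    simp only at h
    apply hij
    apply f.injective
    apply Fin.ext
    omega

theorem one_bound (n w : ℕ) (hn : 0 < n) (hw : 0 < w) {f : Equiv.Perm (Fin n)} (hf : IsCostas f) :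
    (w : ℝ) ^ 4 * ((n : ℝ) / (n + w - 1)) ^ 2 - n * (w : ℝ) ^ 2
      ≤ ((∑ u ∈ dif (dots f), kk w u.1 * kk w u.2 : ℕ) : ℝ) := by
  have h1 := window_cs n w hw (dots f) (dots_range f)
  rw [energy w (dots f) (dots_costas hf), card_dots] at h1
  have h2 : ((n : ℝ) * (w : ℝ) ^ 2) ^ 2 ≤ ((n : ℝ) + w - 1) ^ 2 *
      (n * (w : ℝ) ^ 2 + ((∑ u ∈ dif (dots f), kk w u.1 * kk w u.2 : ℕ) : ℝ)) := by
    have e : ((n + w - 1 : ℕ) : ℝ) = (n : ℝ) + w - 1 := by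
      rw [Nat.cast_sub (by omega)]; push_cast; ring
    rw [← e]
    exact_mod_cast h1
  have hpos : (0 : ℝ) < (n : ℝ) + w - 1 := by
    have a1 : (1 : ℝ) ≤ n := by exact_mod_cast hn
    have a2 : (1 : ℝ) ≤ w := by exact_mod_cast hw
    linarith
  have h3 : (w : ℝ) ^ 4 * ((n : ℝ) / (n + w - 1)) ^ 2 = ((n : ℝ) * (w : ℝ) ^ 2) ^ 2 / ((n : ℝ) + w - 1) ^ 2 := by
    rw [div_pow]; ring
  rw [h3]
  have h4 : ((n : ℝ) * (w : ℝ) ^ 2) ^ 2 / ((n : ℝ) + w - 1) ^ 2 ≤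
      (n * (w : ℝ) ^ 2 + ((∑ u ∈ dif (dots f), kk w u.1 * kk w u.2 : ℕ) : ℝ)) := by
    rw [div_le_iff₀ (by positivity)]
    linarith
  linarith

/-- Two Costas permutations without a common vector satisfy this inequality for every `w`. -/
theorem key_ineq (m n w : ℕ) (hm : 0 < m) (hn : 0 < n) (hw : 0 < w)
    {f : Equiv.Perm (Fin m)} {g : Equiv.Perm (Fin n)} (hf : IsCostas f) (hg : IsCostas g)
    (hfg : ¬ HaveCommonVector f g) :
    (w : ℝ) ^ 2 * (((m : ℝ) / (m + w - 1)) ^ 2 + ((n : ℝ) / (n + w - 1)) ^ 2)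
      ≤ ((w : ℝ) - 1) ^ 2 + m + n := by
  have hdisj : Disjoint (dif (dots f)) (dif (dots g)) := by
    rw [Finset.disjoint_left]
    intro u hu hv
    obtain ⟨i, j, hij, h1⟩ := mem_dif hu
    obtain ⟨k, l, hkl, h2⟩ := mem_dif hv
    rw [h1, Prod.mk.injEq] at h2
    exact hfg ⟨i, j, k, l, hij, hkl, h2.1, h2.2⟩
  have h1 := total w hw _ _ hdisj dif_ne dif_ne
  have h2 : ((∑ u ∈ dif (dots f), kk w u.1 * kk w u.2 : ℕ) : ℝ)
      + ((∑ u ∈ dif (dots g), kk w u.1 * kk w u.2 : ℕ) : ℝ) ≤ ((w : ℝ) * (w - 1)) ^ 2 := by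
    have e : ((w - 1 : ℕ) : ℝ) = (w : ℝ) - 1 := by rw [Nat.cast_sub (by omega)]; push_cast; ring
    rw [← e]
    exact_mod_cast h1
  have h3 := one_bound m w hm hw hf
  have h4 := one_bound n w hn hw hg
  have hw' : (0 : ℝ) < (w : ℝ) ^ 2 := by positivity
  have h5 : (w : ℝ) ^ 2 * ((w : ℝ) ^ 2 * (((m : ℝ) / (m + w - 1)) ^ 2 + ((n : ℝ) / (n + w - 1)) ^ 2))
      ≤ (w : ℝ) ^ 2 * (((w : ℝ) - 1) ^ 2 + m + n) := by
    nlinarith
  exact le_of_mul_le_mul_left h5 hw'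

theorem case_small (m n : ℕ) (hm : 30 ≤ m) (hmn : m ≤ n) (h : ((m : ℝ) + n) ≤ (m : ℝ) ^ 2 / 100)
    {f : Equiv.Perm (Fin m)} {g : Equiv.Perm (Fin n)} (hf : IsCostas f) (hg : IsCostas g) :
    HaveCommonVector f g := by
  by_contra hfg
  obtain ⟨w, r, hw, hr⟩ : ∃ w r : ℕ, m = 5 * w + r ∧ r < 5 := ⟨m / 5, m % 5, by omega, by omega⟩
  have hw0 : 0 < w := by omega
  have key := key_ineq m n w (by omega) (by omega) hw0 hf hg hfg
  have a1 : (1 : ℝ) ≤ w := by exact_mod_cast hw0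
  have a2 : 5 * (w : ℝ) ≤ m := by exact_mod_cast (by omega : 5 * w ≤ m)
  have a3 : (m : ℝ) ≤ n := by exact_mod_cast hmn
  have a4 : (m : ℝ) ≤ 6 * w := by exact_mod_cast (by omega : m ≤ 6 * w)
  have a5 : (0 : ℝ) < m := by linarith
  have frac : ∀ x : ℝ, (m : ℝ) ≤ x → 25 / 36 ≤ (x / (x + w - 1)) ^ 2 := by
    intro x hx
    have h1 : 5 / 6 ≤ x / (x + w - 1) := by
      rw [div_le_div_iff₀ (by norm_num) (by linarith)]; linarith
    nlinarith
  have b1 := frac m (le_refl _)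
  have b2 := frac n a3
  have b3 : (w : ℝ) ^ 2 * (50 / 36) ≤ (w : ℝ) ^ 2 *
      (((m : ℝ) / (m + w - 1)) ^ 2 + ((n : ℝ) / (n + w - 1)) ^ 2) := by
    apply mul_le_mul_of_nonneg_left _ (by positivity)
    linarith
  have b4 : ((w : ℝ) - 1) ^ 2 ≤ (w : ℝ) ^ 2 := by nlinarith
  have b5 : (m : ℝ) ^ 2 ≤ 36 * (w : ℝ) ^ 2 := by nlinarith
  nlinarith

theorem case_large (ε : ℝ) (hε : 0 < ε) : ∃ N : ℕ, ∀ m n : ℕ, N ≤ m → m ≤ n →
    (m : ℝ) ^ 2 / 100 < (m : ℝ) + n → (n : ℝ) ≤ (1 - ε) * (m : ℝ) ^ 2 →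
    ∀ (f : Equiv.Perm (Fin m)) (g : Equiv.Perm (Fin n)), IsCostas f → IsCostas g →
      HaveCommonVector f g := by
  obtain ⟨K, hK⟩ := exists_nat_gt (4 / ε)
  obtain ⟨M, hM⟩ := exists_nat_gt (2 * (400 * (K : ℝ) ^ 3 + 1) / ε)
  refine ⟨max M 200, ?_⟩
  intro m n hm hmn h1 h2 f g hf hg
  by_contra hfg
  have hm1 : M ≤ m := le_trans (le_max_left _ _) hm
  have hm2 : 200 ≤ m := le_trans (le_max_right _ _) hm
  have hKpos : (0 : ℝ) < K := lt_trans (by positivity) hK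
  have hK0 : 0 < K := by exact_mod_cast hKpos
  have hw0 : 0 < K * m := Nat.mul_pos hK0 (by omega)
  have key := key_ineq m n (K * m) (by omega) (by omega) hw0 hf hg hfg
  have a1 : (200 : ℝ) ≤ m := by exact_mod_cast hm2
  have a2 : (m : ℝ) ≤ n := by exact_mod_cast hmn
  have a3 : (M : ℝ) ≤ m := by exact_mod_cast hm1
  have hm0 : (0 : ℝ) < m := by linarith
  have hn0 : (0 : ℝ) < n := by linarith
  have a4 : (m : ℝ) ^ 2 / 200 ≤ n := by nlinarith
  have hK1 : (1 : ℝ) ≤ K := by exact_mod_cast hK0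
  push_cast at key
  set x : ℝ := (K : ℝ) * m with hx
  have hx0 : 0 < x := by positivity
  have hx1 : 1 ≤ x := by nlinarith
  have b1 : 1 - 2 * x / n ≤ ((n : ℝ) / (n + x - 1)) ^ 2 := by
    have c1 : ((n : ℝ) / (n + x)) ^ 2 ≤ ((n : ℝ) / (n + x - 1)) ^ 2 := by
      apply pow_le_pow_left₀ (by positivity)
      apply div_le_div_of_nonneg_left hn0.le (by linarith) (by linarith)
    refine le_trans ?_ c1
    rw [div_pow, le_div_iff₀ (by positivity)]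
    have c2 : 2 * x / n * n = 2 * x := by field_simp
    have c3 : (1 - 2 * x / n) * ((n : ℝ) + x) ^ 2 = ((n : ℝ) + x) ^ 2 - (2 * x / n * n) * (n + 2 * x)
        - 2 * x / n * x ^ 2 := by ring
    rw [c3, c2]
    have c4 : 0 ≤ 2 * x / n * x ^ 2 := by positivity
    nlinarith
  have b2 : (1 - 2 / ((K : ℝ) + 1)) * (m : ℝ) ^ 2 ≤ x ^ 2 * ((m : ℝ) / (m + x - 1)) ^ 2 := by
    have c1 : ((m : ℝ) / (m + x)) ^ 2 ≤ ((m : ℝ) / (m + x - 1)) ^ 2 := by
      apply pow_le_pow_left₀ (by positivity)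
      apply div_le_div_of_nonneg_left hm0.le (by linarith) (by linarith)
    have c2 : (m : ℝ) / (m + x) = 1 / ((K : ℝ) + 1) := by
      rw [hx]; field_simp; ring
    rw [c2] at c1
    have c3 : (1 - 2 / ((K : ℝ) + 1)) * (m : ℝ) ^ 2 ≤ x ^ 2 * (1 / ((K : ℝ) + 1)) ^ 2 := by
      have c4 : x ^ 2 * (1 / ((K : ℝ) + 1)) ^ 2 = (m : ℝ) ^ 2 * (1 - 1 / ((K : ℝ) + 1)) ^ 2 := by
        rw [hx]; field_simp; ring
      rw [c4]
      have c5 : 2 / ((K : ℝ) + 1) = 2 * (1 / ((K : ℝ) + 1)) := by ring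
      rw [c5]
      nlinarith [sq_nonneg ((m : ℝ) * (1 / ((K : ℝ) + 1)))]
    exact le_trans c3 (mul_le_mul_of_nonneg_left c1 (by positivity))
  have b3 : x ^ 2 * (1 - 2 * x / n) ≤ x ^ 2 * ((n : ℝ) / (n + x - 1)) ^ 2 :=
    mul_le_mul_of_nonneg_left b1 (by positivity)
  have b4 : x ^ 2 * (2 * x / n) ≤ 400 * (K : ℝ) ^ 3 * m := by
    have c1 : x ^ 2 * (2 * x / n) = 2 * (K : ℝ) ^ 3 * (m : ℝ) ^ 3 / n := by rw [hx]; ring
    rw [c1, div_le_iff₀ hn0]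
    have c2 : 400 * (K : ℝ) ^ 3 * m * ((m : ℝ) ^ 2 / 200) ≤ 400 * (K : ℝ) ^ 3 * m * n :=
      mul_le_mul_of_nonneg_left a4 (by positivity)
    nlinarith
  have b5 : 2 / ((K : ℝ) + 1) ≤ ε / 2 := by
    rw [div_le_iff₀ (by positivity)]
    rw [div_lt_iff₀ hε] at hK
    nlinarith
  have b6 : 2 * (400 * (K : ℝ) ^ 3 + 1) < m * ε := by
    rw [div_lt_iff₀ hε] at hM
    nlinarith
  have b7 : (2 / ((K : ℝ) + 1)) * (m : ℝ) ^ 2 ≤ ε / 2 * (m : ℝ) ^ 2 :=
    mul_le_mul_of_nonneg_right b5 (by positivity)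
  have b8 : (400 * (K : ℝ) ^ 3 + 1) * m < (m * ε) / 2 * m := by
    apply mul_lt_mul_of_pos_right _ hm0
    linarith
  have b9 : (x - 1) ^ 2 ≤ x ^ 2 := by nlinarith
  nlinarith

/-- sanity checks of the definitions -/
theorem sanity_costas : IsCostas (Equiv.swap (0 : Fin 3) 1) := by
  unfold IsCostas; decide

theorem sanity_not_costas : ¬ IsCostas (1 : Equiv.Perm (Fin 3)) := by
  unfold IsCostas; decide

theorem sanity_disjoint : ¬ HaveCommonVector (1 : Equiv.Perm (Fin 2)) (Equiv.swap (0 : Fin 2) 1) := by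
  unfold HaveCommonVector; decide

theorem sanity_common : HaveCommonVector (Equiv.swap (0 : Fin 2) 1) (Equiv.swap (0 : Fin 3) 1) := by
  unfold HaveCommonVector; decide

/-- For every `ε > 0` there is `N` such that any two Costas permutations of orders `m ≤ n` with
`N ≤ m` and `n ≤ (1 - ε) m ^ 2` have a distance vector in common. -/
theorem result : ∀ ε : ℝ, 0 < ε → ∃ N : ℕ, ∀ (m n : ℕ) (f : Equiv.Perm (Fin m))
    (g : Equiv.Perm (Fin n)), N ≤ m → m ≤ n → (n : ℝ) ≤ (1 - ε) * (m : ℝ) ^ 2 →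
    IsCostas f → IsCostas g → HaveCommonVector f g := by
  intro ε hε
  obtain ⟨N, hN⟩ := case_large ε hε
  refine ⟨max N 30, ?_⟩
  intro m n f g hm hmn h hf hg
  rcases le_or_gt ((m : ℝ) + n) ((m : ℝ) ^ 2 / 100) with h1 | h1
  · exact case_small m n (le_trans (le_max_right _ _) hm) hmn h1 hf hg
  · exact hN m n (le_trans (le_max_left _ _) hm) hmn h1 h f g hf hg

end Pool.Agent.Results.MP_61e712_co.QuadraticRange
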